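import Pool.Agent.Run7.h915.RB.BUA

/-! # BUC: the contact with a class which is separated from the centre drops -/

set_option autoImplicit false
set_option linter.unusedVariables false

namespace Pool.Agent.Run7.h915.RB

open IsLocalRing Pool.Agent.W418.LU2 Pool.Agent.H918R2.Quad Pool.Agent.Run7.h275.RL
open Pool.Agent.Run7.h275.RB

lemma ordLe_div {F : Type} [Field F] {V : ValuationSubring F} {a s : F} {q : ℕ}
    (h : OrdLe V a (q + 1)) (hs0 : s ≠ 0) (hs : V.valuation s < 1) : OrdLe V (a / s) q := by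
  intro z hz
  have h1 := h (fun i => if i < q + 1 then z i else s) (fun i hi => by
    by_cases hi' : i < q + 1
    · simp only [hi', if_true]
      exact hz i hi'
    · simp only [hi', if_false]
      exact hs)
  rw [Finset.prod_range_succ] at h1
  have h2 : ∏ i ∈ Finset.range (q + 1), (if i < q + 1 then z i else s)
      = ∏ i ∈ Finset.range (q + 1), z i :=
    Finset.prod_congr rfl fun i hi => by rw [if_pos (Finset.mem_range.1 hi)]
  rw [h2] at h1
  simp only [lt_irrefl, if_false] at h1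
  have h3 : 0 < V.valuation s := (Valuation.pos_iff _).2 hs0
  rw [map_mul] at h1
  rw [map_div₀]
  exact (lt_div_iff₀ h3).2 h1

theorem t_BUC : S_BUC := by
  intro O F _ _ _ M hM E hE k C hC 𝒯 h𝒯 V hVE q hB
  have hV := hE V hVE
  obtain ⟨j, c, hc, hcT, hcV⟩ := hB
  obtain ⟨l, W, hW, hWV, hWc⟩ := hC.2.2 j c hc (fun T hT => hcT T (Or.inr hT)) V hV
  obtain ⟨w, hw⟩ := exists_Mx hM hV
  obtain ⟨c₀, hc₀⟩ := exists_Mx hC.1 hV
  have hc₀k : c₀ ∈ M ^ k := ((hC.2.1 c₀).1 hc₀.1).1
  refine ⟨j + l + 1, w * (W * c) * c₀ ^ (j + l), ?_, ?_, ?_⟩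
  · have h1 : (M * C) ^ (j + l + 1) = M * (M ^ (j + l) * C) * C ^ (j + l) := by
      rw [mul_pow, pow_succ' M, pow_succ' C]
      ring
    rw [h1]
    exact Submodule.mul_mem_mul (Submodule.mul_mem_mul hw.1 hWc)
      (Submodule.pow_mem_pow _ hc₀.1 _)
  · intro T hT
    obtain ⟨hTO, hTs⟩ := h𝒯 T hT
    obtain ⟨c₁, hc₁, hc₁T⟩ := exists_not_vn hM hC hTO hTs
    have hc₁x := mx_of_not_vn hM hC hTO hc₁ hc₁T
    obtain ⟨u, hu⟩ := exists_Mx hM hTO
    have h1 : T.valuation c₁ = T.valuation u ^ k :=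
      (hu.not_vn_iff hTO ((hC.2.1 c₁).1 hc₁).1).1 hc₁T
    rw [(hu.mul hc₁x).vn_iff]
    have h2 : T.valuation c < T.valuation u ^ j := hu.vn_iff.1 (hcT T (Or.inl hT))
    have h3 : T.valuation W ≤ T.valuation u ^ (k + l) := hu.pow_le hTO hW
    have h4 : T.valuation w ≤ T.valuation u := hu.le hw.1
    have h5 : T.valuation (c₀ ^ (j + l)) ≤ T.valuation c₁ ^ (j + l) := by
      rw [map_pow]
      exact pow_le_pow_left₀ zero_le (hc₁x.le hc₀.1) _
    have h6 : T.valuation (w * (W * c)) < T.valuation u * (T.valuation u ^ (k + l) *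
        T.valuation u ^ j) := by
      rw [map_mul, map_mul]
      exact mul_lt_aux h4 (mul_lt_aux h3 h2 (pow_pos hu.pos _)) hu.pos
    rw [map_mul, mul_comm]
    refine (mul_lt_aux h5 h6 (pow_pos hc₁x.pos _)).trans_le (le_of_eq ?_)
    have h7 : T.valuation u * (T.valuation u ^ (k + l) * T.valuation u ^ j)
        = T.valuation u ^ (j + l + 1) * T.valuation u ^ k := by
      rw [← pow_add, ← pow_succ', ← pow_add]
      congr 1
      omega
    rw [h7, map_mul, mul_pow, pow_succ (T.valuation c₁) (j + l), ← h1, mul_left_comm]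
  · apply ordLe_of_Mx (hw.mul hc₀)
    have h1 : w * (W * c) * c₀ ^ (j + l) / (w * c₀) ^ (j + l + 1)
        = (W / w ^ (k + l)) * (c / w ^ j / (c₀ / w ^ k)) := by
      have h0 := hw.2.1
      have h0' := hc₀.2.1
      field_simp
      ring
    rw [h1]
    have h2 : V.valuation (c₀ / w ^ k) < 1 := by
      have h3 : V.valuation c₀ < V.valuation w ^ k :=
        hw.vn_iff.1 (((hC.2.1 c₀).1 hc₀.1).2 V hVE)
      rw [map_div₀, map_pow]
      exact (div_lt_one₀ (pow_pos hw.pos k)).2 h3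
    have h3 : OrdLe V (c / w ^ j / (c₀ / w ^ k)) q :=
      ordLe_div (hcV w hw.1 hw.2.1) (div_ne_zero hc₀.2.1 (pow_ne_zero _ hw.2.1)) h2
    refine ordLe_mono h3 (le_of_eq ?_)
    rw [map_mul, map_div₀ V.valuation W, map_pow, (hw.not_vn_iff hV hW).1 hWV,
      div_self (pow_ne_zero _ hw.pos.ne'), one_mul]

end Pool.Agent.Run7.h915.RB
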