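import Pool.Agent.Run7.h915.RB.WF

/-! # PEEL: an irreducible relatively open subclass -/

set_option autoImplicit false
set_option linter.unusedVariables false

namespace Pool.Agent.Run7.h915.RB

open IsLocalRing Pool.Agent.W418.LU2 Pool.Agent.H918R2.Quad Pool.Agent.Run7.h275.RL
open Pool.Agent.Run7.h275.RB

theorem t_PEEL : S_PEEL := by
  intro O F _ _ _ _ M hM E hE hne
  let PP : Set (Set (ValuationSubring F)) := {E' | ∃ k, ∃ h ∈ M ^ k, E' = {V ∈ E | ¬ Vn M k V h} ∧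
    E'.Nonempty ∧ ∃ w ∈ M, w ≠ 0 ∧ ∀ V ∈ E', ∀ m ∈ M, m / w ∈ V}
  have hPP : PP.Nonempty := by
    obtain ⟨V₀, hV₀⟩ := hne
    obtain ⟨w, hw⟩ := exists_Mx hM (hE V₀ hV₀)
    have hw1 : w ∈ M ^ 1 := by rw [pow_one]; exact hw.1
    refine ⟨_, 1, w, hw1, rfl, ⟨V₀, hV₀, ?_⟩, w, hw.1, hw.2.1, ?_⟩
    · rw [hw.not_vn_iff (hE V₀ hV₀) hw1, pow_one]
    · rintro V ⟨hV, hVw⟩ m hm
      rw [← V.valuation_le_one_iff, map_div₀]
      refine div_le_one_of_le₀ ?_ zero_le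
      by_contra hlt
      exact hVw ⟨m, hm, by rw [pow_one]; exact not_le.1 hlt⟩
  obtain ⟨E₁, ⟨k, h, hh, rfl, hE₁, w, hwM, hw0, hw⟩, hmin⟩ := (t_WF O F M hM).has_min PP hPP
  refine ⟨k, h, hh, ⟨hE₁, ?_⟩, w, hwM, hw0, fun V hV hVh => hw V ⟨hV, hVh⟩⟩
  intro j a ha l b hb hab
  by_contra hno
  rw [not_or] at hno
  obtain ⟨hna, hnb⟩ := hno
  have hmem : {V ∈ E | ¬ Vn M (k + j) V (h * a)} ∈ PP := by
    have hha : h * a ∈ M ^ (k + j) := by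
      rw [pow_add]
      exact Submodule.mul_mem_mul hh ha
    refine ⟨k + j, h * a, hha, rfl, ?_, w, hwM, hw0, ?_⟩
    · push Not at hna
      obtain ⟨T, ⟨hTE, hTh⟩, hTa⟩ := hna
      exact ⟨T, hTE, by rw [vn_mul_iff hM (hE T hTE) hh ha, not_or]; exact ⟨hTh, hTa⟩⟩
    · rintro V ⟨hVE, hV⟩
      rw [vn_mul_iff hM (hE V hVE) hh ha, not_or] at hV
      exact hw V ⟨hVE, hV.1⟩
  refine hmin _ hmem ⟨?_, fun V hV => hE V hV.1, l, b, hb, ?_, ?_⟩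
  · rintro V ⟨hVE, hV⟩
    rw [vn_mul_iff hM (hE V hVE) hh ha, not_or] at hV
    exact ⟨hVE, hV.1⟩
  · rintro V ⟨hVE, hV⟩
    rw [vn_mul_iff hM (hE V hVE) hh ha, not_or] at hV
    exact (hab V ⟨hVE, hV.1⟩).resolve_left hV.2
  · push Not at hnb
    exact hnb

end Pool.Agent.Run7.h915.RB
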