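import Pool.Agent.Run7.h915.RB.Basic

/-! # PER: separation and bounds persist under `M → M * C` -/

set_option autoImplicit false
set_option linter.unusedVariables false

namespace Pool.Agent.Run7.h915.RB

open IsLocalRing Pool.Agent.W418.LU2 Pool.Agent.H918R2.Quad Pool.Agent.Run7.h275.RL
open Pool.Agent.Run7.h275.RB

section aux

variable {O F : Type} [CommRing O] [Field F] [Algebra O F]

lemma md_mul {M C : Submodule O F} (hM : Md M) (hC : Md C) : Md (M * C) := by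
  obtain ⟨h1, g, hg, hg0⟩ := hM
  obtain ⟨h2, g', hg', hg0'⟩ := hC
  exact ⟨h1.mul h2, g * g', Submodule.mul_mem_mul hg hg', mul_ne_zero hg0 hg0'⟩

lemma ordLe_mono {V : ValuationSubring F} {a b : F} {q : ℕ} (h : OrdLe V a q)
    (hab : V.valuation a ≤ V.valuation b) : OrdLe V b q :=
  fun z hz => (h z hz).trans_le hab

/-- Products of elements of maximal value have maximal value. -/
lemma Mx.mul {M C : Submodule O F} {V : ValuationSubring F} {w c₀ : F} (h : Mx M V w)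
    (h' : Mx C V c₀) : Mx (M * C) V (w * c₀) := by
  refine ⟨Submodule.mul_mem_mul h.1 h'.1, mul_ne_zero h.2.1 h'.2.1, fun m hm => ?_⟩
  refine Submodule.mul_induction_on hm (fun a ha b hb => ?_) (fun a b ha hb => ?_)
  · rw [mul_div_mul_comm]
    exact V.mul_mem _ _ (h.2.2 a ha) (h'.2.2 b hb)
  · rw [add_div]
    exact V.add_mem _ _ ha hb

/-- A bound which holds at a maximal element. -/
lemma ordLe_of_Mx {M : Submodule O F} {V : ValuationSubring F} {w c : F} {k q : ℕ} (h : Mx M V w)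
    (hc : OrdLe V (c / w ^ k) q) : ∀ w' ∈ M, w' ≠ 0 → OrdLe V (c / w' ^ k) q := by
  intro w' hw' hw0
  refine ordLe_mono hc ?_
  rw [map_div₀, map_div₀, map_pow, map_pow]
  have h1 : 0 < V.valuation w' := (Valuation.pos_iff _).2 hw0
  exact div_le_div_of_nonneg_left zero_le (pow_pos h1 k) (pow_le_pow_left₀ zero_le (h.le hw') k)

end aux

theorem t_PER : S_PER := by
  intro O F _ _ _ M C hM hC
  refine ⟨md_mul hM hC, fun V hV 𝒮 => ?_⟩
  obtain ⟨w, hw⟩ := exists_Mx hM hV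
  obtain ⟨c₀, hc₀⟩ := exists_Mx hC hV
  have key : ∀ k c, (∀ T ∈ 𝒮, Vn M k T c) → ∀ T ∈ 𝒮, Vn (M * C) k T (c * c₀ ^ k) := by
    intro k c h T hT
    obtain ⟨w', hw', h'⟩ := h T hT
    refine ⟨w' * c₀, Submodule.mul_mem_mul hw' hc₀.1, ?_⟩
    have h0 : 0 < T.valuation c₀ := (Valuation.pos_iff _).2 hc₀.2.1
    rw [map_mul, map_mul, map_pow, mul_pow]
    exact mul_lt_mul_of_pos_right h' (pow_pos h0 k)
  have key2 : ∀ k, ∀ c ∈ M ^ k, c * c₀ ^ k ∈ (M * C) ^ k := by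
    intro k c hc
    rw [mul_pow]
    exact Submodule.mul_mem_mul hc (Submodule.pow_mem_pow _ hc₀.1 k)
  refine ⟨?_, ?_⟩
  · rintro ⟨k, c, hc, hcV, hcS⟩
    refine ⟨k, c * c₀ ^ k, key2 k c hc, ?_, key k c hcS⟩
    rw [(hw.mul hc₀).vn_iff, map_mul, map_mul, map_pow, mul_pow, (hw.not_vn_iff hV hc).1 hcV]
    exact lt_irrefl _
  · rintro q ⟨k, c, hc, hcS, hcV⟩
    refine ⟨k, c * c₀ ^ k, key2 k c hc, key k c hcS, ?_⟩
    apply ordLe_of_Mx (hw.mul hc₀)
    have h1 : c * c₀ ^ k / (w * c₀) ^ k = c / w ^ k := by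
      rw [mul_pow]
      exact mul_div_mul_right _ _ (pow_ne_zero k hc₀.2.1)
    rw [h1]
    exact hcV w hw.1 hw.2.1

end Pool.Agent.Run7.h915.RB
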