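import Pool.Agent.Run7.h915.RB.Basic

/-! # WF: noetherian induction on the closures of classes -/

set_option autoImplicit false
set_option linter.unusedVariables false

namespace Pool.Agent.Run7.h915.RB

open IsLocalRing Pool.Agent.W418.LU2 Pool.Agent.H918R2.Quad Pool.Agent.Run7.h275.RL
open Pool.Agent.Run7.h275.RB Polynomial

section aux

variable {O F : Type} [CommRing O] [Field F] [Algebra O F]

/-- The homogeneous coordinate ring. -/
noncomputable def HR (M : Submodule O F) : Subalgebra O F[X] :=
  Algebra.adjoin O {p | ∃ m ∈ M, p = C m * X}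

lemma coeff_HR {M : Submodule O F} {p : F[X]} (hp : p ∈ HR M) : ∀ k, p.coeff k ∈ M ^ k := by
  induction hp using Algebra.adjoin_induction with
  | mem p hp =>
    obtain ⟨m, hm, rfl⟩ := hp
    intro k
    rw [coeff_C_mul, coeff_X]
    split_ifs with h
    · subst h
      rw [mul_one, pow_one]
      exact hm
    · rw [mul_zero]
      exact Submodule.zero_mem _
  | algebraMap r =>
    intro k
    rw [Polynomial.algebraMap_apply, coeff_C]
    split_ifs with h
    · subst h
      rw [pow_zero, Submodule.mem_one]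
      exact ⟨r, rfl⟩
    · exact Submodule.zero_mem _
  | add a b _ _ ha hb =>
    intro k
    rw [coeff_add]
    exact Submodule.add_mem _ (ha k) (hb k)
  | mul a b _ _ ha hb =>
    intro k
    rw [coeff_mul]
    refine Submodule.sum_mem _ fun x hx => ?_
    rw [← Finset.HasAntidiagonal.mem_antidiagonal.1 hx, pow_add]
    exact Submodule.mul_mem_mul (ha _) (hb _)

lemma monomial_HR {M : Submodule O F} (k : ℕ) : ∀ c ∈ M ^ k, C c * X ^ k ∈ HR M := by
  induction k with
  | zero =>
    intro c hc
    rw [pow_zero, Submodule.mem_one] at hc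
    obtain ⟨o, rfl⟩ := hc
    rw [pow_zero, mul_one]
    have h1 : C (algebraMap O F o) = algebraMap O F[X] o := (Polynomial.algebraMap_apply o).symm
    rw [h1]
    exact Subalgebra.algebraMap_mem _ o
  | succ k ih =>
    intro c hc
    rw [pow_succ] at hc
    refine Submodule.mul_induction_on hc (fun a ha b hb => ?_) (fun a b ha hb => ?_)
    · have h1 : (C (a * b) * X ^ (k + 1) : F[X]) = C a * X ^ k * (C b * X) := by
        rw [C_mul, pow_succ]
        ring
      rw [h1]
      exact Subalgebra.mul_mem _ (ih a ha) (Algebra.subset_adjoin ⟨b, hb, rfl⟩)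
    · rw [C_add, add_mul]
      exact Subalgebra.add_mem _ ha hb

lemma noeth_HR [IsNoetherianRing O] {M : Submodule O F} (hM : M.FG) : IsNoetherianRing (HR M) := by
  obtain ⟨s, hs⟩ := hM
  have h1 : HR M = Algebra.adjoin O ((fun m => C m * X) '' (s : Set F)) := by
    apply le_antisymm
    · refine Algebra.adjoin_le ?_
      rintro _ ⟨m, hm, rfl⟩
      change C m * X ∈ Algebra.adjoin O ((fun m => (C m * X : F[X])) '' (s : Set F))
      rw [← hs] at hm
      induction hm using Submodule.span_induction with
      | mem m hm => exact Algebra.subset_adjoin ⟨m, hm, rfl⟩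
      | zero => rw [C_0, zero_mul]; exact Subalgebra.zero_mem _
      | add a b _ _ ha hb => rw [C_add, add_mul]; exact Subalgebra.add_mem _ ha hb
      | smul c a _ ha =>
        have h2 : (C (c • a) * X : F[X]) = c • (C a * X) := by
          rw [← smul_C, smul_mul_assoc]
        rw [h2]
        exact Subalgebra.smul_mem _ ha c
    · refine Algebra.adjoin_mono ?_
      rintro _ ⟨m, hm, rfl⟩
      exact ⟨m, hs ▸ Submodule.subset_span hm, rfl⟩
  rw [h1]
  have : Algebra.FiniteType O (Algebra.adjoin O ((fun m => (C m * X : F[X])) '' (s : Set F))) :=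
    (Subalgebra.fg_iff_finiteType _).1 (Subalgebra.fg_def.2 ⟨_, s.finite_toSet.image _, rfl⟩)
  exact Algebra.FiniteType.isNoetherianRing O _

/-- The elements of the homogeneous coordinate ring which vanish at all elements of `E`. -/
def VE (M : Submodule O F) (E : Set (ValuationSubring F)) : Set (HR M) :=
  {p | ∀ T ∈ E, ∀ k, Vn M k T ((p : F[X]).coeff k)}

lemma mem_of_span {M : Submodule O F} (hM : Md M) {E : Set (ValuationSubring F)}
    (hE : ∀ V ∈ E, Cn O V) {p : HR M} (hp : p ∈ Ideal.span (VE M E)) : p ∈ VE M E := by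
  refine Submodule.span_induction (fun p hp => hp) ?_ ?_ ?_ hp
  · intro T hT k
    change Vn M k T ((0 : F[X]).coeff k)
    rw [coeff_zero]
    exact vn_zero hM k
  · intro a b _ _ ha hb T hT k
    obtain ⟨w, hw⟩ := exists_Mx hM (hE T hT)
    change Vn M k T (((a : F[X]) + (b : F[X])).coeff k)
    rw [coeff_add, hw.vn_iff]
    exact Valuation.map_add_lt _ (hw.vn_iff.1 (ha T hT k)) (hw.vn_iff.1 (hb T hT k))
  · intro r a _ ha T hT k
    obtain ⟨w, hw⟩ := exists_Mx hM (hE T hT)
    change Vn M k T (((r : F[X]) * (a : F[X])).coeff k)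
    rw [coeff_mul, hw.vn_iff]
    refine Valuation.map_sum_lt _ (pow_pos hw.pos k).ne' fun x hx => ?_
    rw [← Finset.HasAntidiagonal.mem_antidiagonal.1 hx, pow_add, map_mul]
    exact mul_lt_aux (hw.pow_le (hE T hT) (coeff_HR r.2 _)) (hw.vn_iff.1 (ha T hT _))
      (pow_pos hw.pos _)

end aux

theorem t_WF : S_WF := by
  intro O F _ _ _ _ M hM
  have : IsNoetherianRing (HR M) := noeth_HR hM.1
  refine Subrelation.wf (r := InvImage (· > ·) fun E => Ideal.span (VE M E)) ?_
    (InvImage.wf _ wellFounded_gt)
  rintro E' E ⟨hsub, hE, k, c, hc, hcE', T, hT, hcT⟩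
  change Ideal.span (VE M E) < Ideal.span (VE M E')
  refine lt_of_le_of_ne (Ideal.span_mono fun p hp T hT => hp T (hsub hT)) fun heq => ?_
  let p : HR M := ⟨C c * X ^ k, monomial_HR k c hc⟩
  have hp : p ∈ VE M E' := by
    intro T' hT' k'
    change Vn M k' T' ((C c * X ^ k : F[X]).coeff k')
    rw [coeff_C_mul_X_pow]
    split_ifs with h
    · subst h
      exact hcE' T' hT'
    · exact vn_zero hM k'
  have hp2 : p ∈ Ideal.span (VE M E) := by
    rw [heq]
    exact Ideal.subset_span hp
  have hp3 := mem_of_span hM hE hp2 T hT k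
  change Vn M k T ((C c * X ^ k : F[X]).coeff k) at hp3
  rw [coeff_C_mul_X_pow, if_pos rfl] at hp3
  exact hcT hp3

end Pool.Agent.Run7.h915.RB
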