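import Pool.Agent.Run7.h275.RB0

/-! # Basic facts on vanishing at the centre of a valuation ring -/

set_option autoImplicit false
set_option linter.unusedVariables false

namespace Pool.Agent.Run7.h915.RB

open IsLocalRing Pool.Agent.W418.LU2 Pool.Agent.H918R2.Quad Pool.Agent.Run7.h275.RL
open Pool.Agent.Run7.h275.RB

variable {O F : Type} [CommRing O] [Field F] [Algebra O F]

lemma mul_lt_aux {V : ValuationSubring F} {a b x y : V.ValueGroup} (h1 : a ≤ x) (h2 : b < y)
    (hx : 0 < x) : a * b < x * y :=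
  (mul_le_mul' h1 le_rfl).trans_lt (mul_lt_mul_of_pos_left h2 hx)

/-- `w` has the maximal value in `M`. -/
def Mx (M : Submodule O F) (V : ValuationSubring F) (w : F) : Prop :=
  w ∈ M ∧ w ≠ 0 ∧ ∀ m ∈ M, m / w ∈ V

lemma exists_Mx {M : Submodule O F} (hM : Md M) {V : ValuationSubring F} (hV : Cn O V) :
    ∃ w, Mx M V w := by
  obtain ⟨hfg, g, hg, hg0⟩ := hM
  exact exists_gen_max hV hfg hg hg0

variable {M : Submodule O F} {V : ValuationSubring F} {w : F}

lemma Mx.pos (h : Mx M V w) : 0 < V.valuation w := (Valuation.pos_iff _).2 h.2.1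

lemma Mx.le (h : Mx M V w) {m : F} (hm : m ∈ M) : V.valuation m ≤ V.valuation w := by
  have h1 := (V.valuation_le_one_iff _).2 (h.2.2 m hm)
  rw [map_div₀] at h1
  exact (div_le_one₀ h.pos).1 h1

lemma Mx.pow_le (hV : Cn O V) (h : Mx M V w) {k : ℕ} {c : F} (hc : c ∈ M ^ k) :
    V.valuation c ≤ V.valuation w ^ k := by
  induction k generalizing c with
  | zero =>
    rw [pow_zero, Submodule.mem_one] at hc
    obtain ⟨o, rfl⟩ := hc
    rw [pow_zero]
    exact (V.valuation_le_one_iff _).2 (hV o)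
  | succ k ih =>
    rw [pow_succ] at hc
    refine Submodule.mul_induction_on hc (fun a ha b hb => ?_) (fun a b ha hb => ?_)
    · rw [map_mul, pow_succ]
      exact mul_le_mul' (ih ha) (h.le hb)
    · exact Valuation.map_add_le _ ha hb

lemma Mx.vn_iff (h : Mx M V w) {k : ℕ} {c : F} :
    Vn M k V c ↔ V.valuation c < V.valuation w ^ k := by
  constructor
  · rintro ⟨w', hw', h'⟩
    exact h'.trans_le (pow_le_pow_left₀ zero_le (h.le hw') k)
  · intro h'
    exact ⟨w, h.1, h'⟩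

lemma Mx.not_vn_iff (hV : Cn O V) (h : Mx M V w) {k : ℕ} {c : F} (hc : c ∈ M ^ k) :
    ¬ Vn M k V c ↔ V.valuation c = V.valuation w ^ k := by
  rw [h.vn_iff, not_lt]
  exact ⟨fun h' => le_antisymm (h.pow_le hV hc) h', fun h' => h'.ge⟩

lemma vn_mul_iff (hM : Md M) (hV : Cn O V) {j k : ℕ} {a b : F} (ha : a ∈ M ^ j) (hb : b ∈ M ^ k) :
    Vn M (j + k) V (a * b) ↔ Vn M j V a ∨ Vn M k V b := by
  obtain ⟨w, hw⟩ := exists_Mx hM hV
  have h1 := hw.pow_le hV ha
  have h2 := hw.pow_le hV hb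
  rw [hw.vn_iff, hw.vn_iff, hw.vn_iff, map_mul, pow_add]
  constructor
  · intro h
    by_contra h3
    rw [not_or, not_lt, not_lt] at h3
    exact absurd h (not_lt.2 (mul_le_mul' h3.1 h3.2))
  · rintro (h | h)
    · rw [mul_comm, mul_comm (V.valuation w ^ j)]
      exact mul_lt_aux h2 h (pow_pos hw.pos _)
    · exact mul_lt_aux h1 h (pow_pos hw.pos _)

lemma vn_zero (hM : Md M) (k : ℕ) : Vn M k V 0 := by
  obtain ⟨-, g, hg, hg0⟩ := hM
  refine ⟨g, hg, ?_⟩
  rw [map_zero]
  exact pow_pos ((Valuation.pos_iff _).2 hg0) k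

end Pool.Agent.Run7.h915.RB
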